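import Pool.Agent.N366.CC.Fin

/-!
# A `T_i`-snark of girth at least six

There is a `T_6`-snark (it has 190 vertices) without cycles of length less than 6.
-/

set_option autoImplicit false

namespace Pool.Agent.Results.MP_b9c5ac_co.TSnarkOfGirthSix

open Pool.Agent.N366.RS

/-- A `T_i`-snark: a snark with a spanning copy of the tree `T_i` (given by `φ`). -/
def IsTSnark (i : ℕ) {V : Type} (G : SimpleGraph V) : Prop :=
  1 ≤ i ∧ IsSnark G ∧ ∃ φ : Node i ≃ V, ∀ p q, (tree i).Adj p q → G.Adj (φ p) (φ q)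

/-- There is a `T_6`-snark all of whose cycles have length at least 6. -/
theorem result : ∃ (V : Type) (_ : Finite V) (G : SimpleGraph V),
    IsTSnark 6 G ∧ ∀ (v : V) (c : G.Walk v v), c.IsCycle → 6 ≤ c.length :=
  ⟨Fin 190, inferInstance, Pool.Agent.N366.CC.G,
    ⟨by norm_num, Pool.Agent.N366.CC.G_snark, Pool.Agent.N366.CC.φ,
      Pool.Agent.N366.CC.tree_adj⟩, Pool.Agent.N366.CC.girth_six⟩

end Pool.Agent.Results.MP_b9c5ac_co.TSnarkOfGirthSix
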